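import Mathlib

namespace Pool.Agent.Results.MP_8fb7e7_co.Bound

open Finset

variable {V : Type} [DecidableEq V]

def IsOrientation (r : ℕ) (E : Finset (Finset V)) (o : Finset V → Fin r → V) : Prop :=
  ∀ e ∈ E, Function.Injective (o e) ∧ univ.image (o e) = e

def Dominating {r : ℕ} (p : ℕ) (E : Finset (Finset V)) (o : Finset V → Fin r → V)
    (S : Finset V) : Prop :=
  ∀ u, u ∉ S → ∃ e ∈ E, u ∈ e ∧ ∀ i : Fin r, (i : ℕ) < p → o e i ∈ S

noncomputable def gamma {r : ℕ} (p : ℕ) (E : Finset (Finset V)) (o : Finset V → Fin r → V) : ℕ :=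
  sInf {k | ∃ S : Finset V, Dominating p E o S ∧ S.card = k}

noncomputable def upperGamma (r p : ℕ) (E : Finset (Finset V)) : ℕ :=
  sSup {g | ∃ o : Finset V → Fin r → V, IsOrientation r E o ∧ gamma p E o = g}

noncomputable def alpha (E : Finset (Finset V)) : ℕ :=
  sSup {k | ∃ S : Finset V, (∀ e ∈ E, ¬ e ⊆ S) ∧ S.card = k}

def Dom (E : Finset (Finset V)) (l : Finset V → V) (u : V) (S : Finset V) : Prop :=
  ∃ e ∈ E, l e = u ∧ e.erase u ⊆ S

lemma le_alpha [Fintype V] (E : Finset (Finset V)) (S : Finset V) (h : ∀ e ∈ E, ¬ e ⊆ S) :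
    S.card ≤ alpha E := by
  refine le_csSup ⟨Fintype.card V, ?_⟩ ⟨S, h, rfl⟩
  rintro k ⟨T, _, rfl⟩
  exact card_le_univ T

open Classical in
lemma half [Fintype V] (E : Finset (Finset V)) (l : Finset V → V) (hl : ∀ e ∈ E, l e ∈ e)
    (U : Finset V) (m : ℕ) (hm : m + 1 = 2 * alpha E) (hU : m + 1 ≤ U.card) :
    ∃ S : Finset V, S.card = m ∧
      2 * (U.filter fun u => u ∉ S ∧ ¬ Dom E l u S).card ≤ U.card := by
  by_contra hc
  push Not at hc
  have h1 : ∑ S ∈ U.powersetCard m, (U.filter fun u => u ∉ S ∧ ¬ Dom E l u S).card ≤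
      ∑ R ∈ U.powersetCard (m + 1), (R.filter fun u => ¬ Dom E l u (R.erase u)).card := by
    rw [← card_sigma, ← card_sigma]
    apply card_le_card_of_injOn (fun x => ⟨insert x.2 x.1, x.2⟩)
    · rintro ⟨S, u⟩ hx
      simp only [coe_sigma, Set.mem_sigma_iff, mem_coe, mem_powersetCard, mem_filter] at hx ⊢
      obtain ⟨⟨a, b⟩, c, d, e⟩ := hx
      refine ⟨⟨insert_subset c a, by rw [card_insert_of_notMem d, b]⟩, mem_insert_self _ _, ?_⟩
      rwa [erase_insert d]
    · rintro ⟨S, u⟩ hx ⟨T, v⟩ hy h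
      simp only [coe_sigma, Set.mem_sigma_iff, mem_coe, mem_powersetCard, mem_filter] at hx hy
      simp only [Sigma.mk.injEq, heq_eq_eq] at h
      obtain ⟨h1, rfl⟩ := h
      have : S = T := by rw [← erase_insert hx.2.2.1, h1, erase_insert hy.2.2.1]
      rw [this]
  have h2 : ∑ R ∈ U.powersetCard (m + 1), (R.filter fun u => ¬ Dom E l u (R.erase u)).card ≤
      U.card.choose (m + 1) * alpha E := by
    rw [← card_powersetCard, ← smul_eq_mul]
    apply sum_le_card_nsmul
    intro R _
    apply le_alpha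
    intro e he hs
    have := mem_filter.mp (hs (hl e he))
    exact this.2 ⟨e, he, rfl, erase_subset_erase _ (hs.trans (filter_subset _ _))⟩
  have h3 : U.card.choose m * (U.card + 1) ≤
      ∑ S ∈ U.powersetCard m, 2 * (U.filter fun u => u ∉ S ∧ ¬ Dom E l u S).card := by
    rw [← card_powersetCard, ← smul_eq_mul]
    apply card_nsmul_le_sum
    intro S hS
    exact hc S (mem_powersetCard.mp hS).2
  rw [← mul_sum] at h3
  have h4 := Nat.choose_succ_right_eq U.card m
  have h5 : 0 < U.card.choose m := Nat.choose_pos (by omega)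
  have h6 : U.card.choose m * (U.card - m) < U.card.choose m * (U.card + 1) :=
    Nat.mul_lt_mul_of_pos_left (by omega) h5
  have h7 : U.card.choose (m + 1) * (m + 1) = 2 * (U.card.choose (m + 1) * alpha E) := by
    rw [hm]
    ring
  omega

lemma cover [Fintype V] (E : Finset (Finset V)) (l : Finset V → V) (hl : ∀ e ∈ E, l e ∈ e)
    (ha : 0 < alpha E) (k : ℕ) : ∀ U : Finset V, U.card < 2 ^ k →
      ∃ S : Finset V, S.card ≤ 2 * alpha E * k ∧ ∀ u ∈ U, u ∉ S → Dom E l u S := by
  classical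
  induction k with
  | zero =>
    intro U hU
    have : U = ∅ := card_eq_zero.mp (by omega)
    exact ⟨∅, by simp, by simp [this]⟩
  | succ k ih =>
    intro U hU
    by_cases h : U.card ≤ 2 * alpha E
    · exact ⟨U, by nlinarith, fun u hu hn => absurd hu hn⟩
    · obtain ⟨S, hS, hh⟩ := half E l hl U (2 * alpha E - 1) (by omega) (by omega)
      obtain ⟨T, hT, hd⟩ := ih _ (show (U.filter fun u => u ∉ S ∧ ¬ Dom E l u S).card < 2 ^ k by
        rw [pow_succ] at hU
        omega)
      refine ⟨S ∪ T, ?_, ?_⟩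
      · have := card_union_le S T
        have e : 2 * alpha E * (k + 1) = 2 * alpha E * k + 2 * alpha E := by ring
        omega
      · intro u hu hn
        rw [mem_union, not_or] at hn
        by_cases hD : Dom E l u S
        · obtain ⟨e, he, h1, h2⟩ := hD
          exact ⟨e, he, h1, h2.trans subset_union_left⟩
        · obtain ⟨e, he, h1, h2⟩ := hd u (mem_filter.mpr ⟨hu, hn.1, hD⟩) hn.2
          exact ⟨e, he, h1, h2.trans subset_union_right⟩

theorem result (r p : ℕ) (hp : 1 ≤ p) (hpr : p ≤ r - 1) :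
    ∃ c : ℝ, 0 < c ∧ ∀ n : ℕ, 2 ≤ n → ∀ E : Finset (Finset (Fin n)), (∀ e ∈ E, e.card = r) →
      (upperGamma r p E : ℝ) ≤ c * alpha E * Real.log n := by
  have l2 : 0 < Real.log 2 := Real.log_pos (by norm_num)
  refine ⟨4 / Real.log 2, by positivity, fun n hn E hE => ?_⟩
  have ha : 0 < alpha E := by
    have := le_alpha E {⟨0, by omega⟩} (fun e he hs => by
      have := card_le_card hs
      rw [hE e he, card_singleton] at this
      omega)
    rwa [card_singleton] at this
  have h1 : upperGamma r p E ≤ 2 * alpha E * (Nat.log 2 n + 1) := by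
    apply csSup_le'
    rintro g ⟨o, ho, rfl⟩
    let z : Fin r := ⟨r - 1, by omega⟩
    have hmem : ∀ e ∈ E, ∀ i, o e i ∈ e := fun e he i => by
      have := mem_image_of_mem (o e) (mem_univ i)
      rwa [(ho e he).2] at this
    obtain ⟨S, hS, hd⟩ := cover E (fun e => o e z) (fun e he => hmem e he z) ha
      (Nat.log 2 n + 1) univ (by simpa using Nat.lt_pow_succ_log_self (by norm_num) n)
    refine le_trans (Nat.sInf_le ⟨S, ?_, rfl⟩) hS
    intro u hu
    obtain ⟨e, he, h1, h2⟩ := hd u (mem_univ u) hu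
    refine ⟨e, he, h1 ▸ hmem e he z, fun i hi => h2 (mem_erase.mpr ⟨?_, hmem e he i⟩)⟩
    intro h
    have := congrArg Fin.val ((ho e he).1 (h.trans h1.symm))
    simp only [z] at this
    omega
  have h2 : 1 ≤ Nat.log 2 n := Nat.log_pos (by norm_num) hn
  have h3 : (Nat.log 2 n : ℝ) * Real.log 2 ≤ Real.log n := by
    rw [← Real.log_pow]
    apply Real.log_le_log (by positivity)
    exact_mod_cast Nat.pow_log_le_self 2 (by omega)
  have h4 : (upperGamma r p E : ℝ) ≤ 4 * alpha E * Nat.log 2 n := by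
    have : upperGamma r p E ≤ 4 * alpha E * Nat.log 2 n := by nlinarith
    exact_mod_cast this
  have h5 : (Nat.log 2 n : ℝ) ≤ Real.log n / Real.log 2 := (le_div_iff₀ l2).mpr h3
  calc (upperGamma r p E : ℝ) ≤ 4 * alpha E * (Real.log n / Real.log 2) :=
        h4.trans (mul_le_mul_of_nonneg_left h5 (by positivity))
    _ = 4 / Real.log 2 * alpha E * Real.log n := by ring

end Pool.Agent.Results.MP_8fb7e7_co.Bound
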